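import Pool.Agent.LFT.TriStmts

/-!
# Module NEAR (MP_9c589f_co): in every direction one of the three edges of a triangle is good
-/

namespace Pool.Agent.LFT88

open Set Pool.Agent.LFT
open scoped RealInnerProductSpace

/-- A convex quadratic polynomial on an interval is at most its maximum at the end points. -/
theorem quad_lt (α β γ M p r t : ℝ) (hα : 0 ≤ α) (h1 : p ≤ t) (h2 : t ≤ r)
    (hp : α * p ^ 2 + β * p + γ < M) (hr : α * r ^ 2 + β * r + γ < M) :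
    α * t ^ 2 + β * t + γ < M := by
  rcases eq_or_lt_of_le h1 with h | h
  · rwa [← h]
  · have hpr : 0 < r - p := by linarith
    have key : (α * t ^ 2 + β * t + γ - M) * (r - p) =
        (α * p ^ 2 + β * p + γ - M) * (r - t) + (α * r ^ 2 + β * r + γ - M) * (t - p) -
          α * ((t - p) * (r - t)) * (r - p) := by
      ring
    have h3 : (α * p ^ 2 + β * p + γ - M) * (r - t) ≤ 0 :=
      mul_nonpos_of_nonpos_of_nonneg (by linarith) (by linarith)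
    have h4 : (α * r ^ 2 + β * r + γ - M) * (t - p) < 0 :=
      mul_neg_of_neg_of_pos (by linarith) (by linarith)
    have h5 : 0 ≤ α * ((t - p) * (r - t)) * (r - p) :=
      mul_nonneg (mul_nonneg hα (mul_nonneg (by linarith) (by linarith))) hpr.le
    have h6 : (α * t ^ 2 + β * t + γ - M) * (r - p) < 0 := by rw [key]; linarith
    by_contra hc
    rw [not_lt] at hc
    exact absurd h6 (not_lt.mpr (mul_nonneg (by linarith) hpr.le))

/-- The quadratic form on the hexagon. -/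
theorem hexagon (a b c g M X Y : ℝ) (ha : 0 ≤ a) (hb : 0 ≤ b) (hg : 0 ≤ g)
    (hgg : g ^ 2 = a ^ 2 + b ^ 2 - 2 * c)
    (h1 : FF a b g < M) (h2 : FF b a g < M) (h3 : FF g a b < M)
    (hX : |X| ≤ 2 * a + b + g) (hY : |Y| ≤ 2 * b + a + g) (hZ : |Y - X| ≤ 2 * g + b + a) :
    b ^ 2 * X ^ 2 - 2 * c * (X * Y) + a ^ 2 * Y ^ 2 < M := by
  have hc : 2 * c = a ^ 2 + b ^ 2 - g ^ 2 := by linarith
  rw [abs_le] at hX hY hZ
  -- the three vertices (up to sign)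
  have q1 : b ^ 2 * (2 * a + b + g) ^ 2 - 2 * c * ((2 * a + b + g) * (2 * b + a + g)) +
      a ^ 2 * (2 * b + a + g) ^ 2 < M := by
    have e : b ^ 2 * (2 * a + b + g) ^ 2 - 2 * c * ((2 * a + b + g) * (2 * b + a + g)) +
      a ^ 2 * (2 * b + a + g) ^ 2 = FF g a b := by
      rw [hc]; unfold FF; ring
    rwa [e]
  have q2 : b ^ 2 * (2 * a + b + g) ^ 2 - 2 * c * ((2 * a + b + g) * (a - g)) +
      a ^ 2 * (a - g) ^ 2 < M := by
    have e : b ^ 2 * (2 * a + b + g) ^ 2 - 2 * c * ((2 * a + b + g) * (a - g)) +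
      a ^ 2 * (a - g) ^ 2 = FF b a g := by
      rw [hc]; unfold FF; ring
    rwa [e]
  have q3 : b ^ 2 * (b - g) ^ 2 - 2 * c * ((b - g) * (2 * b + a + g)) +
      a ^ 2 * (2 * b + a + g) ^ 2 < M := by
    have e : b ^ 2 * (b - g) ^ 2 - 2 * c * ((b - g) * (2 * b + a + g)) +
      a ^ 2 * (2 * b + a + g) ^ 2 = FF a b g := by
      rw [hc]; unfold FF; ring
    rwa [e]
  -- the upper boundary of the hexagon
  have hup : ∃ Yh, Y ≤ Yh ∧ b ^ 2 * X ^ 2 - 2 * c * (X * Yh) + a ^ 2 * Yh ^ 2 < M := by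
    rcases le_total X (b - g) with h | h
    · refine ⟨X + (2 * g + b + a), by linarith, ?_⟩
      have := quad_lt (g ^ 2) ((2 * a ^ 2 - 2 * c) * (2 * g + b + a))
        (a ^ 2 * (2 * g + b + a) ^ 2) M (-(2 * a + b + g)) (b - g) X (sq_nonneg g) hX.1 h
        (by
          refine lt_of_le_of_lt (le_of_eq ?_) q2
          rw [hgg]; ring_nf)
        (by
          refine lt_of_le_of_lt (le_of_eq ?_) q3
          rw [hgg]; ring_nf)
      refine lt_of_le_of_lt (le_of_eq ?_) this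
      rw [hgg]; ring
    · refine ⟨2 * b + a + g, by linarith, ?_⟩
      have := quad_lt (b ^ 2) (-(2 * c * (2 * b + a + g))) (a ^ 2 * (2 * b + a + g) ^ 2) M
        (b - g) (2 * a + b + g) X (sq_nonneg b) h hX.2
        (by refine lt_of_le_of_lt (le_of_eq ?_) q3; ring)
        (by refine lt_of_le_of_lt (le_of_eq ?_) q1; ring)
      refine lt_of_le_of_lt (le_of_eq ?_) this
      ring
  have hlo : ∃ Yl, Yl ≤ Y ∧ b ^ 2 * X ^ 2 - 2 * c * (X * Yl) + a ^ 2 * Yl ^ 2 < M := by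
    rcases le_total X (g - b) with h | h
    · refine ⟨-(2 * b + a + g), by linarith, ?_⟩
      have := quad_lt (b ^ 2) (2 * c * (2 * b + a + g)) (a ^ 2 * (2 * b + a + g) ^ 2) M
        (-(2 * a + b + g)) (g - b) X (sq_nonneg b) hX.1 h
        (by refine lt_of_le_of_lt (le_of_eq ?_) q1; ring)
        (by refine lt_of_le_of_lt (le_of_eq ?_) q3; ring)
      refine lt_of_le_of_lt (le_of_eq ?_) this
      ring
    · refine ⟨X - (2 * g + b + a), by linarith, ?_⟩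
      have := quad_lt (g ^ 2) (-((2 * a ^ 2 - 2 * c) * (2 * g + b + a)))
        (a ^ 2 * (2 * g + b + a) ^ 2) M (g - b) (2 * a + b + g) X (sq_nonneg g) h hX.2
        (by
          refine lt_of_le_of_lt (le_of_eq ?_) q3
          rw [hgg]; ring_nf)
        (by
          refine lt_of_le_of_lt (le_of_eq ?_) q2
          rw [hgg]; ring_nf)
      refine lt_of_le_of_lt (le_of_eq ?_) this
      rw [hgg]; ring
  obtain ⟨Yh, hYh, hh⟩ := hup
  obtain ⟨Yl, hYl, hl⟩ := hlo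
  have := quad_lt (a ^ 2) (-(2 * c * X)) (b ^ 2 * X ^ 2) M Yl Yh Y (sq_nonneg a) hYl hYh
    (by refine lt_of_le_of_lt (le_of_eq ?_) hl; ring)
    (by refine lt_of_le_of_lt (le_of_eq ?_) hh; ring)
  refine lt_of_le_of_lt (le_of_eq ?_) this
  ring

theorem inner_eq (a b : E) : ⟪a, b⟫ = a 0 * b 0 + a 1 * b 1 := by
  simp [PiLp.inner_apply, Fin.sum_univ_two, mul_comm]

theorem norm_sq (a : E) : ‖a‖ ^ 2 = a 0 ^ 2 + a 1 ^ 2 := by
  rw [← real_inner_self_eq_norm_sq, inner_eq]; ring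

theorem gram (e f n : E) (hn : ‖n‖ = 1) :
    ‖f‖ ^ 2 * ⟪n, e⟫ ^ 2 - 2 * ⟪e, f⟫ * (⟪n, e⟫ * ⟪n, f⟫) + ‖e‖ ^ 2 * ⟪n, f⟫ ^ 2 =
      ‖e‖ ^ 2 * ‖f‖ ^ 2 - ⟪e, f⟫ ^ 2 := by
  have h1 : n 0 ^ 2 + n 1 ^ 2 = 1 := by rw [← norm_sq, hn]; norm_num
  rw [norm_sq, norm_sq, inner_eq, inner_eq, inner_eq]
  linear_combination (e 0 * f 1 - e 1 * f 0) ^ 2 * h1

theorem triNear_proof : Stmt_TriNear := by
  intro e f n ρ hef hn hρ hF1 hF2 hF3
  by_contra hcon
  push Not at hcon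
  obtain ⟨c1, c2, c3⟩ := hcon
  have hgg : ‖f - e‖ ^ 2 = ‖e‖ ^ 2 + ‖f‖ ^ 2 - 2 * ⟪e, f⟫ := by
    rw [@norm_sub_sq_real, real_inner_comm]; ring
  have habs : ∀ x : ℝ, |3 * ρ * x| = 3 * ρ * |x| := by
    intro x
    rw [abs_mul, abs_of_pos (by positivity : 0 < 3 * ρ)]
  have hX : |3 * ρ * ⟪n, e⟫| ≤ 2 * ‖e‖ + ‖f‖ + ‖f - e‖ := by rw [habs]; exact c1
  have hY : |3 * ρ * ⟪n, f⟫| ≤ 2 * ‖f‖ + ‖e‖ + ‖f - e‖ := by rw [habs]; exact c2
  have hZ : |3 * ρ * ⟪n, f⟫ - 3 * ρ * ⟪n, e⟫| ≤ 2 * ‖f - e‖ + ‖f‖ + ‖e‖ := by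
    rw [← mul_sub, ← inner_sub_right, habs]; exact c3
  have := hexagon ‖e‖ ‖f‖ ⟪e, f⟫ ‖f - e‖ _ (3 * ρ * ⟪n, e⟫) (3 * ρ * ⟪n, f⟫) (norm_nonneg _)
    (norm_nonneg _) (norm_nonneg _) hgg hF1 hF2 hF3 hX hY hZ
  have hgr := gram e f n hn
  rw [← hgr] at this
  apply absurd this
  rw [not_lt]
  apply le_of_eq
  ring

end Pool.Agent.LFT88
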