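import Pool.Agent.LFT.TriStmts

/-!
# Module STACK (MP_9c589f_co): stacking copies of a layer removes a bounded error
-/

namespace Pool.Agent.LFT88

open MeasureTheory Set Pool.Agent.LFT
open scoped RealInnerProductSpace ENNReal

/-- The translate of a set. -/
def shift (v : E) (K : Set E) : Set E := (fun p => p + v) '' K

theorem mem_shift {v p : E} {K : Set E} : p ∈ shift v K ↔ p - v ∈ K := by
  constructor
  · rintro ⟨q, hq, rfl⟩
    simpa using hq
  · intro h
    exact ⟨p - v, h, by simp⟩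

theorem interior_shift (v : E) (K : Set E) : interior (shift v K) = shift v (interior K) := by
  have h : shift v K = (Homeomorph.addRight v) '' K := rfl
  have h' : shift v (interior K) = (Homeomorph.addRight v) '' (interior K) := rfl
  rw [h, h', Homeomorph.image_interior]

theorem shift_inj {v : E} {K K' : Set E} (h : shift v K = shift v K') : K = K' :=
  (image_injective.mpr (add_left_injective v)) h

/-- Interior points of a set in a half plane lie in the open half plane. -/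
theorem lt_of_interior {n : E} (hn : ‖n‖ = 1) {K : Set E} {b : ℝ}
    (hK : ∀ p ∈ K, ⟪n, p⟫ ≤ b) {p : E} (hp : p ∈ interior K) : ⟪n, p⟫ < b := by
  have hopen : IsOpen (interior K) := isOpen_interior
  obtain ⟨ε, hε, hball⟩ := Metric.isOpen_iff.mp hopen p hp
  have hmem : p + (ε / 2) • n ∈ interior K := by
    apply hball
    rw [Metric.mem_ball, dist_eq_norm]
    simp only [add_sub_cancel_left, norm_smul, hn, mul_one, Real.norm_eq_abs]
    rw [abs_of_pos (by linarith)]
    linarith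
  have h1 := hK _ (interior_subset hmem)
  rw [inner_add_right, inner_smul_right, real_inner_self_eq_norm_sq, hn] at h1
  linarith

theorem gt_of_interior {n : E} (hn : ‖n‖ = 1) {K : Set E} {b : ℝ}
    (hK : ∀ p ∈ K, b ≤ ⟪n, p⟫) {p : E} (hp : p ∈ interior K) : b < ⟪n, p⟫ := by
  have h := lt_of_interior (n := -n) (by rwa [norm_neg]) (K := K) (b := -b)
    (fun q hq => by rw [inner_neg_left]; linarith [hK q hq]) hp
  rw [inner_neg_left] at h
  linarith

/-- `k` copies of the layer on top of each other. -/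
def stack (𝒯 : Set (Set E)) (n : E) (d : ℝ) (k : ℕ) : Set (Set E) :=
  {L | ∃ j : ℕ, j < k ∧ ∃ K ∈ 𝒯, L = shift (((j : ℝ) * d) • n) K}

theorem inner_shift {n : E} (hn : ‖n‖ = 1) (p : E) (r : ℝ) : ⟪n, p + r • n⟫ = ⟪n, p⟫ + r := by
  rw [inner_add_right, inner_smul_right, real_inner_self_eq_norm_sq, hn]; ring

theorem inner_unshift {n : E} (hn : ‖n‖ = 1) (p : E) (r : ℝ) : ⟪n, p - r • n⟫ = ⟪n, p⟫ - r := by
  rw [inner_sub_right, inner_smul_right, real_inner_self_eq_norm_sq, hn]; ring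

theorem stack_layer {𝒯 : Set (Set E)} {n : E} {a d : ℝ} (h : IsLayer 𝒯 n a d) {k : ℕ}
    (hk : 0 < k) : IsLayer (stack 𝒯 n d k) n a ((k : ℝ) * d) := by
  have hn := h.unit
  have hd := h.pos
  have hkR : (0 : ℝ) < k := by exact_mod_cast hk
  refine ⟨hn, by positivity, ?_, ?_, ?_, ?_⟩
  · rintro L ⟨j, _, K, hK, rfl⟩
    obtain ⟨h1, h2, h3⟩ := h.body K hK
    refine ⟨h1.image (by fun_prop), ?_, ?_⟩
    · have h4 := h2.translate (((j : ℝ) * d) • n)
      have h5 : (fun x => ((j : ℝ) * d) • n + x) '' K = shift (((j : ℝ) * d) • n) K := by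
        unfold shift
        simp only [add_comm]
      rwa [h5] at h4
    · rw [interior_shift]
      exact h3.image _
  · rintro L ⟨j, _, K, hK, rfl⟩ L' ⟨j', _, K', hK', rfl⟩ hne
    rw [interior_shift, interior_shift]
    rw [Set.disjoint_left]
    intro p hp hp'
    rw [mem_shift] at hp hp'
    have u1 := lt_of_interior hn (fun q hq => (h.strip K hK q hq).2) hp
    have u2 := gt_of_interior hn (fun q hq => (h.strip K hK q hq).1) hp
    have u3 := lt_of_interior hn (fun q hq => (h.strip K' hK' q hq).2) hp'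
    have u4 := gt_of_interior hn (fun q hq => (h.strip K' hK' q hq).1) hp'
    rw [inner_unshift hn] at u1 u2 u3 u4
    have hjj : j = j' := by
      have v1 : (j : ℝ) < j' + 1 := by
        by_contra hc
        rw [not_lt] at hc
        have : ((j' : ℝ) + 1) * d ≤ j * d := mul_le_mul_of_nonneg_right hc hd.le
        linarith
      have v2 : (j' : ℝ) < j + 1 := by
        by_contra hc
        rw [not_lt] at hc
        have : ((j : ℝ) + 1) * d ≤ j' * d := mul_le_mul_of_nonneg_right hc hd.le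
        linarith
      have w1 : j < j' + 1 := by exact_mod_cast v1
      have w2 : j' < j + 1 := by exact_mod_cast v2
      omega
    subst hjj
    have hKK : K ≠ K' := by
      rintro rfl
      exact hne rfl
    exact Set.disjoint_left.mp (h.packing K hK K' hK' hKK) hp hp'
  · rintro L ⟨j, hj, K, hK, rfl⟩ p hp
    rw [mem_shift] at hp
    obtain ⟨s1, s2⟩ := h.strip K hK _ hp
    rw [inner_unshift hn] at s1 s2
    have hjR : (j : ℝ) + 1 ≤ k := by exact_mod_cast hj
    have h0 : 0 ≤ (j : ℝ) * d := by positivity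
    have h1 : ((j : ℝ) + 1) * d ≤ k * d := mul_le_mul_of_nonneg_right hjR hd.le
    constructor <;> linarith
  · intro R
    have hfin : (⋃ j ∈ Finset.range k, (shift (((j : ℝ) * d) • n)) ''
        {K ∈ 𝒯 | (K ∩ Metric.closedBall 0 (R + (j : ℝ) * d)).Nonempty}).Finite := by
      apply Set.Finite.biUnion (Finset.finite_toSet _)
      intro j _
      exact (h.locFin _).image _
    refine hfin.subset ?_
    rintro L ⟨⟨j, hj, K, hK, rfl⟩, p, hp, hpR⟩
    simp only [mem_iUnion, exists_prop, Finset.mem_range]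
    refine ⟨j, hj, K, ⟨hK, p - ((j : ℝ) * d) • n, mem_shift.mp hp, ?_⟩, rfl⟩
    rw [Metric.mem_closedBall, dist_zero_right] at hpR ⊢
    have h0 : 0 ≤ (j : ℝ) * d := by positivity
    calc ‖p - ((j : ℝ) * d) • n‖ ≤ ‖p‖ + ‖((j : ℝ) * d) • n‖ := norm_sub_le _ _
      _ = ‖p‖ + (j : ℝ) * d := by rw [norm_smul, hn, mul_one, Real.norm_eq_abs, abs_of_nonneg h0]
      _ ≤ R + (j : ℝ) * d := by linarith

theorem stack_translate {C : Set E} {𝒯 : Set (Set E)} (n : E) (d : ℝ) (k : ℕ)
    (h : ∀ K ∈ 𝒯, IsTranslate C K) : ∀ K ∈ stack 𝒯 n d k, IsTranslate C K := by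
  rintro L ⟨j, _, K, hK, rfl⟩
  obtain ⟨z, rfl⟩ := h K hK
  refine ⟨z + ((j : ℝ) * d) • n, ?_⟩
  unfold shift
  rw [image_image]
  simp only [add_assoc]

/-- A piece of a curve which passes through one copy of the layer is at least as long as the
crossing length of the layer. -/
theorem piece {𝒯 : Set (Set E)} {n : E} {a d : ℝ} (hL : IsLayer 𝒯 n a d) (γ : ℝ → E) (s t r : ℝ)
    (hst : s ≤ t) (hγ : ContinuousOn γ (Icc s t)) (h0 : ⟪n, γ s⟫ = a + r)
    (h1 : ⟪n, γ t⟫ = a + r + d)
    (hav : ∀ x ∈ Icc s t, ∀ K ∈ 𝒯, γ x ∉ interior (shift (r • n) K)) :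
    crossLen 𝒯 n a d ≤ eVariationOn γ (Icc s t) := by
  have hn := hL.unit
  set φ : ℝ → ℝ := fun x => s + x * (t - s) with hφ
  have hφmaps : MapsTo φ (Icc 0 1) (Icc s t) := by
    intro x hx
    have h2 : 0 ≤ t - s := by linarith
    refine ⟨?_, ?_⟩
    · have : 0 ≤ x * (t - s) := mul_nonneg hx.1 h2
      simp only [hφ]; linarith
    · have : x * (t - s) ≤ 1 * (t - s) := mul_le_mul_of_nonneg_right hx.2 h2
      simp only [hφ]; linarith
  have hφmono : MonotoneOn φ (Icc 0 1) := by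
    intro x _ y _ hxy
    have : x * (t - s) ≤ y * (t - s) := mul_le_mul_of_nonneg_right hxy (by linarith)
    simp only [hφ]; linarith
  have hcross : IsCrossing 𝒯 n a d (fun x => γ (φ x) - r • n) := by
    refine ⟨?_, ?_, ?_, ?_⟩
    · refine ContinuousOn.sub ?_ continuousOn_const
      exact hγ.comp (by fun_prop) hφmaps
    · show ⟪n, γ (φ 0) - r • n⟫ = a
      rw [inner_unshift hn]
      have : φ 0 = s := by simp [hφ]
      rw [this, h0]; ring
    · show ⟪n, γ (φ 1) - r • n⟫ = a + d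
      rw [inner_unshift hn]
      have : φ 1 = t := by simp [hφ]
      rw [this, h1]; ring
    · intro x hx K hK hmem
      apply hav (φ x) (hφmaps hx) K hK
      rw [interior_shift, mem_shift]
      exact hmem
  have h2 : crossLen 𝒯 n a d ≤ eVariationOn (fun x => γ (φ x) - r • n) (Icc 0 1) :=
    iInf₂_le _ hcross
  refine h2.trans ?_
  have h3 : eVariationOn (fun x => γ (φ x) - r • n) (Icc 0 1) =
      eVariationOn (γ ∘ φ) (Icc 0 1) := by
    unfold eVariationOn
    simp
  rw [h3]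
  exact eVariationOn.comp_le_of_monotoneOn γ φ hφmono hφmaps

theorem pieces {𝒯 : Set (Set E)} {n : E} {a d : ℝ} (hL : IsLayer 𝒯 n a d) (γ : ℝ → E) (k : ℕ) :
    ∀ (s t r : ℝ), s ≤ t → ContinuousOn γ (Icc s t) → ⟪n, γ s⟫ = a + r →
      ⟪n, γ t⟫ = a + r + (k : ℝ) * d →
      (∀ x ∈ Icc s t, ∀ j : ℕ, j < k → ∀ K ∈ 𝒯,
        γ x ∉ interior (shift ((r + (j : ℝ) * d) • n) K)) →
      (k : ℝ≥0∞) * crossLen 𝒯 n a d ≤ eVariationOn γ (Icc s t) := by
  have hd := hL.pos
  induction k with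
  | zero =>
    intro s t r _ _ _ _ _
    simp
  | succ k ih =>
    intro s t r hst hγ h0 h1 hav
    have hcont : ContinuousOn (fun x => ⟪n, γ x⟫) (Icc s t) :=
      ContinuousOn.inner continuousOn_const hγ
    have hmem : a + r + d ∈ Icc ((fun x => ⟪n, γ x⟫) s) ((fun x => ⟪n, γ x⟫) t) := by
      simp only [h0, h1]
      push_cast
      have : 0 ≤ (k : ℝ) * d := by positivity
      constructor <;> nlinarith
    obtain ⟨m, hm, hmv⟩ := intermediate_value_Icc hst hcont hmem
    have hmv' : ⟪n, γ m⟫ = a + r + d := hmv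
    have p1 : crossLen 𝒯 n a d ≤ eVariationOn γ (Icc s m) := by
      apply piece hL γ s m r hm.1 (hγ.mono (Icc_subset_Icc_right hm.2)) h0 hmv'
      intro x hx K hK
      have := hav x ⟨hx.1, hx.2.trans hm.2⟩ 0 (Nat.succ_pos k) K hK
      simpa using this
    have p2 : (k : ℝ≥0∞) * crossLen 𝒯 n a d ≤ eVariationOn γ (Icc m t) := by
      apply ih m t (r + d) hm.2 (hγ.mono (Icc_subset_Icc_left hm.1)) (by rw [hmv']; ring)
        (by rw [h1]; push_cast; ring)
      intro x hx j hj K hK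
      have := hav x ⟨hm.1.trans hx.1, hx.2⟩ (j + 1) (Nat.succ_lt_succ hj) K hK
      have e : r + ((j + 1 : ℕ) : ℝ) * d = r + d + (j : ℝ) * d := by push_cast; ring
      rwa [e] at this
    have hadd := eVariationOn.Icc_add_Icc γ (s := univ) (a := s) (b := m) (c := t)
        hm.1 hm.2 (mem_univ _)
    simp only [univ_inter] at hadd
    rw [← hadd]
    calc ((k + 1 : ℕ) : ℝ≥0∞) * crossLen 𝒯 n a d
        = crossLen 𝒯 n a d + (k : ℝ≥0∞) * crossLen 𝒯 n a d := by push_cast; ring
      _ ≤ _ := add_le_add p1 p2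

theorem stack_crossLen {𝒯 : Set (Set E)} {n : E} {a d : ℝ} (hL : IsLayer 𝒯 n a d) (k : ℕ) :
    (k : ℝ≥0∞) * crossLen 𝒯 n a d ≤ crossLen (stack 𝒯 n d k) n a ((k : ℝ) * d) := by
  refine le_iInf₂ fun γ hγ => ?_
  apply pieces hL γ k 0 1 0 zero_le_one hγ.cont (by rw [hγ.start]; ring)
    (by rw [hγ.stop]; ring)
  intro x hx j hj K hK
  apply hγ.avoid x hx
  refine ⟨j, hj, K, hK, ?_⟩
  rw [zero_add]

theorem stack_proof : Stmt_Stack := by
  intro C n c κ hc H 𝒯 a d hL hT
  have hd := hL.pos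
  set L := crossLen 𝒯 n a d with hLdef
  have hkey : ∀ k : ℕ, 0 < k → (k : ℝ≥0∞) * L ≤ ENNReal.ofReal (c * ((k : ℝ) * d) + κ) := by
    intro k hk
    exact (stack_crossLen hL k).trans
      (H _ _ _ (stack_layer hL hk) (stack_translate n d k hT))
  have hfin : L ≠ ⊤ := by
    have h1 := hkey 1 one_pos
    intro htop
    rw [htop] at h1
    simp at h1
  obtain ⟨l, hl0, hl⟩ : ∃ l : ℝ, 0 ≤ l ∧ L = ENNReal.ofReal l :=
    ⟨L.toReal, ENNReal.toReal_nonneg, (ENNReal.ofReal_toReal hfin).symm⟩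
  rw [hl]
  apply ENNReal.ofReal_le_ofReal
  by_contra hcon
  rw [not_le] at hcon
  obtain ⟨k, hk⟩ := exists_nat_gt (|κ| / (l - c * d))
  have hpos : 0 < l - c * d := by linarith
  have hkpos : 0 < k := by
    have : 0 ≤ |κ| / (l - c * d) := by positivity
    have h2 : (0 : ℝ) < k := lt_of_le_of_lt this hk
    exact_mod_cast h2
  have hkR : (0 : ℝ) < k := by exact_mod_cast hkpos
  have h3 := hkey k hkpos
  rw [hl, ← ENNReal.ofReal_natCast, ← ENNReal.ofReal_mul hkR.le] at h3
  have h4 : (k : ℝ) * l ≤ c * ((k : ℝ) * d) + |κ| := by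
    have h5 : ENNReal.ofReal ((k : ℝ) * l) ≤ ENNReal.ofReal (c * ((k : ℝ) * d) + |κ|) :=
      h3.trans (ENNReal.ofReal_le_ofReal (by linarith [le_abs_self κ]))
    have h6 : 0 ≤ c * ((k : ℝ) * d) + |κ| := by positivity
    exact (ENNReal.ofReal_le_ofReal_iff h6).mp h5
  rw [div_lt_iff₀ hpos] at hk
  nlinarith

end Pool.Agent.LFT88
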